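import Pool.Agent.Hhelper14.ZP.Defs

/-!
# The translates of a subvariety of `Y(1)ⁿ` by `PGL₂(ℂ)ⁿ`, finiteness of the atypical intersections
-/

namespace Pool.Agent.ZPE

open MvPolynomial Pool.Agent.Hhelper14.ZP

/-- The set of the points `(β_i + α_i / (y_i - γ_i))_i` of `ℂⁿ`, where `y` is a point of `V` with
`y_i ≠ γ_i` for all `i`. -/
def pglImageC {n : ℕ} (α β γ : Fin n → ℂ) (V : Set (Fin n → ℂ)) : Set (Fin n → ℂ) :=
  {x | ∃ y ∈ V, ∀ i, y i ≠ γ i ∧ x i = β i + α i / (y i - γ i)}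

/-- The translate of `V` by the element `(y_i ↦ β_i + α_i / (y_i - γ_i))_i` of `PGL₂(ℂ)ⁿ`
(if all `α_i` are nonzero), acting on `(ℙ¹)ⁿ`: the Zariski closure in `ℂⁿ` of `pglImageC α β γ V`. -/
def pglTranslateC {n : ℕ} (α β γ : Fin n → ℂ) (V : Set (Fin n → ℂ)) : Set (Fin n → ℂ) :=
  zeroLocus ℂ (vanishingIdeal ℂ (pglImageC α β γ V))

/-- Finitely many proper special subvarieties contain all atypical intersections of `V` with special
subvarieties. -/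
def FinAtypical {n : ℕ} (V : Set (Fin n → ℂ)) : Prop :=
  ∃ S : Set (Set (Fin n → ℂ)), S.Finite ∧ (∀ T ∈ S, IsSpecial T ∧ T ≠ Set.univ) ∧
    ∀ Z, IsSpecial Z → ∀ C, IsComponent C (V ∩ Z) → dim Z + dim V < dim C + n →
      ∃ T ∈ S, C ⊆ T

end Pool.Agent.ZPE
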