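import Pool.Agent.ZPE.Tate

/-!
# Hecke related points in two discs of `ℂ_p` are related with bounded degree
-/

namespace Pool.Agent.ZPE

open UpperHalfPlane ModularForm MatrixGroups Function PowerSeries Pool.Agent.Hhelper14.ZP

section close

variable {K : Type*} [NormedField K] [IsUltrametricDist K]

theorem norm_of_near {x b : K} {δ : ℝ} (hδ : δ < 1) (hb : b ≠ 0) (h : ‖x - b‖ ≤ δ * ‖b‖) :
    ‖x‖ = ‖b‖ := by
  have hb' : 0 < ‖b‖ := norm_pos_iff.mpr hb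
  have h1 : ‖x - b‖ < ‖b‖ := h.trans_lt (by nlinarith)
  have e : x = (x - b) + b := by ring
  rw [e, IsUltrametricDist.norm_add_eq_max_of_norm_ne_norm h1.ne, max_eq_right h1.le]

theorem norm_close {u : K} {δ : ℝ} (hδ : δ < 1) (h : ‖u - 1‖ ≤ δ) : ‖u‖ = 1 := by
  have := norm_of_near hδ (one_ne_zero (α := K)) (x := u) (by rw [norm_one, mul_one]; exact h)
  rw [this, norm_one]

theorem close_mul {u v : K} {δ : ℝ} (hδ : δ < 1) (hu : ‖u - 1‖ ≤ δ) (hv : ‖v - 1‖ ≤ δ) :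
    ‖u * v - 1‖ ≤ δ := by
  have e : u * v - 1 = (u - 1) * v + (v - 1) := by ring
  rw [e]
  refine (IsUltrametricDist.norm_add_le_max _ _).trans (max_le ?_ hv)
  rw [norm_mul, norm_close hδ hv, mul_one]
  exact hu

theorem close_pow {u : K} {δ : ℝ} (hδ : δ < 1) (hδ0 : 0 ≤ δ) (hu : ‖u - 1‖ ≤ δ) (n : ℕ) :
    ‖u ^ n - 1‖ ≤ δ := by
  induction n with
  | zero => simpa using hδ0
  | succ n ih =>
    rw [pow_succ]
    exact close_mul hδ ih hu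

theorem close_inv {u : K} {δ : ℝ} (hδ : δ < 1) (hu : ‖u - 1‖ ≤ δ) : ‖u⁻¹ - 1‖ ≤ δ := by
  have h1 := norm_close hδ hu
  have hu0 : u ≠ 0 := by
    rintro rfl
    rw [norm_zero] at h1
    exact zero_ne_one h1
  have e : u⁻¹ - 1 = -(u - 1) * u⁻¹ := by
    field_simp
    ring
  rw [e, norm_mul, norm_neg, norm_inv, h1, inv_one, mul_one]
  exact hu

end close

section tate

variable {K : Type*} [NormedField K] [IsUltrametricDist K] [CompleteSpace K] [IsAlgClosed K]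

/-- the Tate parameter of a number in a disc -/
theorem tate_close {f : PowerSeries K} (hfn : ∀ n, ‖coeff n f‖ ≤ 1) (hf0 : coeff 0 f = 1)
    {x q b : K} (h : IsTate f x q) {δ : ℝ} (hδ : δ < 1) (hb : 1 < ‖b‖) (hb' : ‖b‖⁻¹ ≤ δ)
    (hxb : ‖x - b‖ ≤ δ * ‖b‖) : ‖q * b - 1‖ ≤ δ := by
  have hb0 : b ≠ 0 := by
    rintro rfl
    rw [norm_zero] at hb
    linarith
  have hx : ‖x‖ = ‖b‖ := norm_of_near hδ hb0 hxb
  have hx0 : x ≠ 0 := by
    rintro rfl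
    rw [norm_zero] at hx
    linarith
  have h1 := (norm_of_isTate hfn hf0 h).1
  have hq : ‖q‖ = ‖b‖⁻¹ := by
    rw [hx] at h1
    exact eq_inv_of_mul_eq_one_left h1
  have h2 : ‖q * x - 1‖ ≤ δ := by
    rw [h.2]
    have h3 := norm_val_sub_le hfn h.1 (t := 0) (by simp)
    rw [val_zero hfn, hf0, sub_zero] at h3
    exact h3.trans (hq.le.trans hb')
  have h3 : ‖x / b - 1‖ ≤ δ := by
    have e : x / b - 1 = (x - b) / b := by
      field_simp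
    rw [e, norm_div, div_le_iff₀ (by linarith)]
    exact hxb
  have h4 := close_mul hδ h2 (close_inv hδ h3)
  have e : q * b = q * x * (x / b)⁻¹ := by
    field_simp
  rw [e]
  exact h4

end tate

/-- the exponents -/
theorem reduced_of_eq {a d a' d' : ℕ} (ha' : 0 < a') (hcop : Nat.Coprime a' d')
    (h : a * d' = a' * d) : ∃ g, a = a' * g ∧ d = d' * g := by
  have h1 : a' ∣ a := by
    have : a' ∣ a * d' := h ▸ dvd_mul_right a' d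
    exact hcop.dvd_of_dvd_mul_right this
  obtain ⟨g, rfl⟩ := h1
  refine ⟨g, rfl, ?_⟩
  have : a' * (g * d') = a' * d := by rw [← h]; ring
  have := Nat.eq_of_mul_eq_mul_left ha' this
  rw [← this, mul_comm]

variable {p : ℕ} [hp : Fact p.Prime]

/-- **Hecke related points in two discs outside the unit disc are related with bounded degree.** -/
theorem pair_bounded (σ : ℂ →+* PadicComplex p) {b₁ b₂ : PadicComplex p} (hb₁ : 1 < ‖b₁‖)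
    (hb₂ : 1 < ‖b₂‖) {δ : ℝ} (hδ : δ < 1) : ∃ (N₀ : ℕ) (hN₀ : 0 < N₀), ∀ x y : ℂ,
      ‖σ x - b₁‖ ≤ δ * ‖b₁‖ → ‖σ y - b₂‖ ≤ δ * ‖b₂‖ → HeckeRel x y →
        ∃ (τ : ℍ) (A : DD N₀), x = jInv τ ∧ y = jA hN₀ A τ := by
  classical
  obtain ⟨f, hfO, hf0, hf⟩ := exists_Jf
  set fσ := PowerSeries.map σ f with hfσ
  have hfn : ∀ n, ‖coeff n fσ‖ ≤ 1 := fun n => by
    rw [hfσ, PowerSeries.coeff_map]
    exact norm_OO_le norm_intCast_le σ (hfO n)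
  have hf0' : coeff 0 fσ = 1 := by
    rw [hfσ, PowerSeries.coeff_map, hf0, map_one]
  -- a common bound
  set δ' : ℝ := max (max δ 0) (max ‖b₁‖⁻¹ ‖b₂‖⁻¹) with hδ'
  have hδ'1 : δ' < 1 := max_lt (max_lt hδ one_pos) (max_lt (inv_lt_one_of_one_lt₀ hb₁)
    (inv_lt_one_of_one_lt₀ hb₂))
  have hδ'0 : 0 ≤ δ' := le_max_of_le_left (le_max_right _ _)
  have hδδ' : δ ≤ δ' := le_max_of_le_left (le_max_left _ _)
  have hb₁0 : b₁ ≠ 0 := by
    rintro rfl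
    rw [norm_zero] at hb₁
    linarith
  have hb₂0 : b₂ ≠ 0 := by
    rintro rfl
    rw [norm_zero] at hb₂
    linarith
  -- the data of a related pair
  have data : ∀ x y : ℂ, ‖σ x - b₁‖ ≤ δ * ‖b₁‖ → ‖σ y - b₂‖ ≤ δ * ‖b₂‖ → HeckeRel x y →
      ∃ (τ : ℍ) (q₁ q₂ ζ s : PadicComplex p) (N a d : ℕ), x = jInv τ ∧ 0 < N ∧ 0 < a ∧ 0 < d ∧
        a * d = N ∧ IsTate fσ (σ x) q₁ ∧ IsTate fσ (σ y) q₂ ∧ s ^ N = q₁ ∧ ζ ^ d = 1 ∧
        q₂ = ζ * s ^ (a ^ 2) ∧ ‖q₁ * b₁ - 1‖ ≤ δ' ∧ ‖q₂ * b₂ - 1‖ ≤ δ' := by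
    intro x y hx hy hxy
    have hx1 : ‖σ x‖ = ‖b₁‖ := norm_of_near hδ hb₁0 hx
    obtain ⟨τ, g, hg, rfl, hyτ⟩ := hxy
    obtain ⟨N, hN, A, hA⟩ := exists_integral hg
    obtain ⟨q₁, hq1, hqx⟩ := exists_q hfn hf0' (x := σ (jInv τ)) (by rw [hx1]; exact hb₁)
    have hq₁ : IsTate fσ (σ (jInv τ)) q₁ := ⟨hq1, hqx⟩
    obtain ⟨s, hs⟩ := IsAlgClosed.exists_pow_nat_eq q₁ hN
    obtain ⟨a, d, ζ, ha, hd, had, hζ, hT⟩ := tate_of_dd hfO hf0 hf norm_intCast_le σ hN A τ hq₁ hs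
    have hyA : y = jA hN A τ := by rw [hyτ, jA, hA]
    rw [← hyA] at hT
    refine ⟨τ, q₁, ζ * s ^ (a ^ 2), ζ, s, N, a, d, rfl, hN, ha, hd, had, hq₁, hT, hs, hζ, rfl, ?_, ?_⟩
    · exact tate_close hfn hf0' hq₁ hδ'1 hb₁
        (le_max_of_le_right (le_max_left _ _)) (hx.trans (by gcongr))
    · exact tate_close hfn hf0' hT hδ'1 hb₂
        (le_max_of_le_right (le_max_right _ _)) (hy.trans (by gcongr))
  -- consequences
  have norms : ∀ q b : PadicComplex p, 1 < ‖b‖ → ‖q * b - 1‖ ≤ δ' → ‖q‖ = ‖b‖⁻¹ := by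
    intro q b hb h
    have h1 := norm_close hδ'1 h
    rw [norm_mul] at h1
    exact eq_inv_of_mul_eq_one_left h1
  by_cases hex : ∃ x y : ℂ, ‖σ x - b₁‖ ≤ δ * ‖b₁‖ ∧ ‖σ y - b₂‖ ≤ δ * ‖b₂‖ ∧ HeckeRel x y
  · obtain ⟨x₀, y₀, hx₀, hy₀, hxy₀⟩ := hex
    obtain ⟨τ₀, u₁, u₂, ζ₀, s₀, N, a₀, d₀, -, hN, ha₀, hd₀, had₀, hu₁, hu₂, hs₀, hζ₀, hu₂e, hc₁, hc₂⟩ :=
      data x₀ y₀ hx₀ hy₀ hxy₀
    have hg₀ : 0 < Nat.gcd a₀ d₀ := Nat.gcd_pos_of_pos_left _ ha₀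
    obtain ⟨a', ha'⟩ := Nat.gcd_dvd_left a₀ d₀
    obtain ⟨d', hd'⟩ := Nat.gcd_dvd_right a₀ d₀
    set g₀ := Nat.gcd a₀ d₀ with hg₀def
    have ha'0 : 0 < a' := Nat.pos_of_mul_pos_left (ha' ▸ ha₀ : 0 < g₀ * a')
    have hd'0 : 0 < d' := Nat.pos_of_mul_pos_left (hd' ▸ hd₀ : 0 < g₀ * d')
    have hcop : Nat.Coprime a' d' := by
      have h1 : g₀ * Nat.gcd a' d' = g₀ * 1 := by
        rw [← Nat.gcd_mul_left, ← ha', ← hd', mul_one]
      exact Nat.eq_of_mul_eq_mul_left hg₀ h1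
    -- the reduced relation
    have red : ∀ (q₁ q₂ ζ s : PadicComplex p) (N a d g : ℕ), a * d = N → s ^ N = q₁ → ζ ^ d = 1 →
        q₂ = ζ * s ^ (a ^ 2) → a = a' * g → d = d' * g → q₂ ^ d' = ζ ^ d' * q₁ ^ a' ∧
          (ζ ^ d') ^ g = 1 := by
      intro q₁ q₂ ζ s N a d g had hs hζ hq₂ hag hdg
      refine ⟨?_, by rw [← pow_mul, ← hdg, hζ]⟩
      rw [hq₂, mul_pow, ← hs, ← pow_mul, ← pow_mul]
      congr 2
      rw [← had, hag, hdg]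
      ring
    obtain ⟨r1, r2⟩ := red u₁ u₂ ζ₀ s₀ N a₀ d₀ g₀ had₀ hs₀ hζ₀ hu₂e (by rw [mul_comm]; exact ha')
      (by rw [mul_comm]; exact hd')
    obtain ⟨j, hj⟩ := unity_near (p := p) hδ'1
    set D := g₀ * p ^ j with hD
    have hD0 : 0 < D := Nat.mul_pos hg₀ (pow_pos hp.out.pos j)
    have hN₀ : 0 < (a' * D) * (d' * D) :=
      Nat.mul_pos (Nat.mul_pos ha'0 hD0) (Nat.mul_pos hd'0 hD0)
    refine ⟨(a' * D) * (d' * D), hN₀, fun x y hx hy hxy => ?_⟩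
    obtain ⟨τ, q₁, q₂, ζ, s, M, a, d, hxτ, hM, ha, hd, had, hq₁, hq₂, hs, hζ, hq₂e, hd₁, hd₂⟩ :=
      data x y hx hy hxy
    have hnq₁ := norms q₁ b₁ hb₁ hd₁
    have hnq₂ := norms q₂ b₂ hb₂ hd₂
    have hnu₁ := norms u₁ b₁ hb₁ hc₁
    have hnu₂ := norms u₂ b₂ hb₂ hc₂
    have hq₁0 : q₁ ≠ 0 := by
      rw [← norm_pos_iff, hnq₁]
      positivity
    have hq₂0 : q₂ ≠ 0 := by
      rw [← norm_pos_iff, hnq₂]
      positivity
    have hu₁0 : u₁ ≠ 0 := by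
      rw [← norm_pos_iff, hnu₁]
      positivity
    have hu₂0 : u₂ ≠ 0 := by
      rw [← norm_pos_iff, hnu₂]
      positivity
    -- the exponents
    have hexp : a * d' = a' * d := by
      have n1 : ‖q₂‖ ^ d = ‖q₁‖ ^ a := by
        rw [← norm_pow, ← norm_pow, hq₂e, mul_pow, hζ, one_mul, ← hs, ← pow_mul, ← pow_mul]
        congr 2
        rw [← had]
        ring
      have n2 : ‖q₂‖ ^ d' = ‖q₁‖ ^ a' := by
        have h1 := congrArg norm r1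
        rw [norm_mul, norm_pow, norm_pow u₁, norm_root hg₀ r2, one_mul, hnu₁, hnu₂] at h1
        rw [hnq₁, hnq₂]
        exact h1
      have hq1 : ‖q₁‖ < 1 := hq₁.1
      have h2 : ‖q₁‖ ^ (a * d') = ‖q₁‖ ^ (a' * d) := by
        rw [pow_mul, ← n1, ← pow_mul, mul_comm d d', pow_mul, n2, ← pow_mul]
      exact pow_right_injective₀ (norm_pos_iff.mpr hq₁0) hq1.ne h2
    obtain ⟨g, hag, hdg⟩ := reduced_of_eq ha'0 hcop hexp
    have hg : 0 < g := by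
      rcases Nat.eq_zero_or_pos g with h | h
      · rw [h, mul_zero] at hag
        omega
      · exact h
    obtain ⟨t1, t2⟩ := red q₁ q₂ ζ s M a d g had hs hζ hq₂e hag hdg
    -- the quotient of the two roots of unity
    have hZ₀ : ζ₀ ^ d' ≠ 0 := by
      intro h0
      rw [h0, zero_pow hg₀.ne'] at r2
      exact zero_ne_one r2
    have hZ : ζ ^ d' ≠ 0 := by
      intro h0
      rw [h0, zero_pow hg.ne'] at t2
      exact zero_ne_one t2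
    set w := ζ ^ d' * (ζ₀ ^ d')⁻¹ with hw
    have hwe : w = ((q₂ * b₂) ^ d' * ((q₁ * b₁) ^ a')⁻¹) * ((u₂ * b₂) ^ d' * ((u₁ * b₁) ^ a')⁻¹)⁻¹ := by
      have e1 : ζ ^ d' = q₂ ^ d' * (q₁ ^ a')⁻¹ := by
        rw [t1]
        field_simp
      have e2 : ζ₀ ^ d' = u₂ ^ d' * (u₁ ^ a')⁻¹ := by
        rw [r1]
        field_simp
      rw [hw, e1, e2]
      simp only [mul_pow]
      field_simp
    have hwc : ‖w - 1‖ ≤ δ' := by
      rw [hwe]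
      refine close_mul hδ'1 (close_mul hδ'1 (close_pow hδ'1 hδ'0 hd₂ _)
        (close_inv hδ'1 (close_pow hδ'1 hδ'0 hd₁ _))) (close_inv hδ'1 (close_mul hδ'1
        (close_pow hδ'1 hδ'0 hc₂ _) (close_inv hδ'1 (close_pow hδ'1 hδ'0 hc₁ _))))
    have hwM : w ^ (g * g₀) = 1 := by
      rw [hw, mul_pow, inv_pow, pow_mul (ζ ^ d'), t2, one_pow, one_mul, mul_comm g g₀,
        pow_mul (ζ₀ ^ d'), r2, one_pow, inv_one]
    have hwj := hj w (g * g₀) (Nat.mul_pos hg hg₀) hwM hwc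
    have hZD : (ζ ^ d') ^ D = 1 := by
      have e : ζ ^ d' = w * ζ₀ ^ d' := by
        rw [hw]
        field_simp
      rw [e, mul_pow, hD, mul_comm g₀, pow_mul w, hwj, one_pow, one_mul, mul_comm (p ^ j),
        pow_mul (ζ₀ ^ d'), r2, one_pow]
    -- the Hecke relation
    obtain ⟨s₁, hs₁⟩ := IsAlgClosed.exists_pow_nat_eq q₁ hN₀
    have hs₁0 : s₁ ≠ 0 := by
      rintro rfl
      rw [zero_pow hN₀.ne'] at hs₁
      exact hq₁0 hs₁.symm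
    have hz1 : (q₂ * (s₁ ^ ((a' * D) ^ 2))⁻¹) ^ (d' * D) = 1 := by
      have e : (a' * D) ^ 2 * d' = (a' * D) * (d' * D) * a' := by ring
      have hz0 : (q₂ * (s₁ ^ ((a' * D) ^ 2))⁻¹) ^ d' = ζ ^ d' := by
        rw [mul_pow, inv_pow, ← pow_mul, e, pow_mul s₁ ((a' * D) * (d' * D)) a', hs₁, t1, mul_assoc,
          mul_inv_cancel₀ (pow_ne_zero _ hq₁0), mul_one]
      rw [pow_mul _ d' D, hz0, hZD]
    subst hxτ
    obtain ⟨A, hA⟩ := dd_of_tate hfO hf0 hf norm_intCast_le σ hN₀ rfl τ hq₁ hs₁ hz1 (y := y) (by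
      rw [mul_assoc, inv_mul_cancel₀ (pow_ne_zero _ hs₁0), mul_one]
      exact hq₂)
    exact ⟨τ, A, rfl, hA⟩
  · refine ⟨1, one_pos, fun x y hx hy hxy => absurd ⟨x, y, hx, hy, hxy⟩ hex⟩

end Pool.Agent.ZPE
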