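import Pool.Agent.ZPS.Reduction

/-!
# Points with integral coordinates of an irreducible subset of a special subvariety, outside
finitely many closed sets
-/

namespace Pool.Agent.ZPE

open UpperHalfPlane MvPolynomial Pool.Agent.Hhelper14.ZP Pool.Agent.Hhelper14.ZPL Pool.Agent.ZPS

variable {n : ℕ}

theorem exists_point_avoid {Z W : Set (Fin n → ℂ)}
    (hZ : Pool.Agent.Hhelper14.ZPL.IsSpecial Z)
    (hW : Pool.Agent.Hhelper14.ZPL.IsIrredClosed W) (hWZ : W ⊆ Z)
    {S : Set (Set (Fin n → ℂ))} (hS : S.Finite)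
    (hSs : ∀ T ∈ S, IsZClosed T) (hSW : ∀ T ∈ S, ¬ W ⊆ T) :
    ∃ (r : ℕ) (x : Fin n → ℂ) (block : Fin n → Option (Fin r)) (g : Fin n → GL (Fin 2) ℚ)
      (τ : Fin r → ℍ), (r : WithBot ℕ∞) + Pool.Agent.Hhelper14.ZPL.dim W ≤
        Pool.Agent.Hhelper14.ZPL.dim Z ∧
      x ∈ W ∧ (∀ T ∈ S, x ∉ T) ∧ (∀ i, 0 < (g i).det.val) ∧
      (∀ i, block i = none → x i ∈ OO) ∧
      ∀ i b, block i = some b → x i = jInv (gact (g i) (τ b)) := by
  classical
  obtain ⟨r, block, g, s, hb, hg, hs, hZ'⟩ := isSpecial_iff.mp hZ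
  obtain ⟨hP, hPW⟩ := id hW
  set P : Ideal (MvPolynomial (Fin n) ℂ) := vanishingIdeal ℂ W with hPdef
  obtain ⟨I, hI⟩ := exists_basis P
  have hdimW : Pool.Agent.Hhelper14.ZPL.dim W = I.card := by
    rw [Pool.Agent.Hhelper14.ZPL.dim, ← hPdef, krull_eq_card hI]
    simp
  have hdimZ : Pool.Agent.Hhelper14.ZPL.dim Z = r := by
    rw [hZ', dim_spSet hb hg, Fintype.card_fin]
  have hZP : vanishingIdeal ℂ Z ≤ P := vanishingIdeal_anti_mono hWZ
  -- the coordinates in `I` lie in distinct blocks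
  have hblock : ∀ i : I, ∃ b, block i = some b := by
    intro i
    rw [← Option.ne_none_iff_exists']
    intro hnone
    have h1 : X (i : Fin n) - MvPolynomial.C (jInv (s i)) ∈ P := by
      apply hZP
      rw [mem_vanishingIdeal_iff]
      intro x hx
      rw [hZ'] at hx
      obtain ⟨τ, hτ⟩ := hx
      have h2 := hτ i
      rw [hnone] at h2
      simp [h2]
    have h2 : xbar P i = algebraMap ℂ _ (jInv (s i)) := by
      rw [← sub_eq_zero]
      have h3 := Ideal.Quotient.eq_zero_iff_mem.mpr h1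
      rw [map_sub] at h3
      exact h3
    have h3 := hI.1.transcendental i
    rw [h2] at h3
    exact h3 (isAlgebraic_algebraMap _)
  choose f hf using hblock
  have hfinj : Function.Injective f := by
    intro i i' hii'
    by_contra hne
    have hne' : (i : Fin n) ≠ i' := fun h => hne (Subtype.ext h)
    have hpos : 0 < (g i' * (g i)⁻¹).det.val := by
      rw [map_mul, Units.val_mul]
      exact mul_pos (hg _) (det_inv_pos (hg _))
    obtain ⟨Φ, hΦ, hΦτ⟩ := modular_eq_rat hpos
    refine not_indep hZP hI.1 i.2 i'.2 hne' hΦ fun x hx => ?_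
    rw [hZ'] at hx
    obtain ⟨τ, hτ⟩ := hx
    have h1 := hτ i
    have h2 := hτ i'
    rw [hf i] at h1
    rw [hf i', ← hii'] at h2
    simp only [Option.elim] at h1 h2
    have h3 := hΦτ (gact (g i) (τ (f i)))
    rw [← gact_mul, inv_mul_cancel_right] at h3
    rw [h1, h2]
    exact h3
  -- a polynomial vanishing on all members of `S` but not on `W`
  obtain ⟨F, hFS, hFP⟩ : ∃ F : MvPolynomial (Fin n) ℂ, (∀ T ∈ S, F ∈ vanishingIdeal ℂ T) ∧ F ∉ P := by
    have h1 : ∀ T ∈ S, ∃ p : MvPolynomial (Fin n) ℂ, p ∈ vanishingIdeal ℂ T ∧ p ∉ P := by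
      intro T hT
      by_contra hcon
      push Not at hcon
      apply hSW T hT
      have h2 : IsZClosed T := hSs T hT
      rw [← h2, ← hPW]
      exact zeroLocus_anti_mono hcon
    choose! p hp hpP using h1
    refine ⟨∏ T ∈ hS.toFinset, p T, fun T hT => ?_, fun h => ?_⟩
    · exact Ideal.mem_of_dvd _ (Finset.dvd_prod_of_mem p (hS.mem_toFinset.mpr hT)) (hp T hT)
    · obtain ⟨T, hT, hT'⟩ := hP.prod_mem_iff.mp h
      exact hpP T (hS.mem_toFinset.mp hT) hT'
  -- a generic integral point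
  obtain ⟨h, hh0, hgen⟩ := exists_generic P hI
  obtain ⟨h', hh0', hgen'⟩ := exists_generic_ne P hI hFP
  obtain ⟨a, ha⟩ : ∃ a : I → ℤ, MvPolynomial.eval (fun i => (a i : ℂ)) (h * h') ≠ 0 := by
    by_contra hcon
    push Not at hcon
    apply mul_ne_zero hh0 hh0'
    apply MvPolynomial.funext_set (fun _ : I => Set.range (fun m : ℤ => (m : ℂ)))
      (fun _ => Set.infinite_range_of_injective Int.cast_injective)
    intro a ha
    choose m hm using fun i => ha i (Set.mem_univ i)
    have : a = fun i => (m i : ℂ) := funext fun i => (hm i).symm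
    rw [this, hcon m, map_zero]
  rw [map_mul] at ha
  obtain ⟨x, hxP, hxa⟩ := hgen _ (left_ne_zero_of_mul ha)
  have hxW : x ∈ W := by rw [← hPW]; exact hxP
  have hFx : MvPolynomial.eval x F ≠ 0 := by
    refine hgen' x hxP ?_
    have h1 : (fun i : I => x i) = fun i => (a i : ℂ) := funext hxa
    rw [h1]
    exact right_ne_zero_of_mul ha
  have hxZ := hWZ hxW
  rw [hZ'] at hxZ
  obtain ⟨τ, hτ⟩ := hxZ
  -- the remaining blocks
  let T : Finset (Fin r) := Finset.univ.image f
  have hT : T.card = I.card := by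
    rw [Finset.card_image_of_injective _ hfinj, Finset.card_univ, Fintype.card_coe]
  have hrem : (Tᶜ).card = r - I.card := by
    rw [Finset.card_compl, hT, Fintype.card_fin]
  let e : (Tᶜ : Finset (Fin r)) ≃ Fin (r - I.card) := Finset.equivFinOfCardEq hrem
  have hTle : I.card ≤ r := by
    rw [← hT]
    simpa using Finset.card_le_univ T
  have hnone : ∀ i, block i = none → x i ∈ OO := by
    intro i hi
    have h1 := hτ i
    rw [hi] at h1
    simp only [Option.elim] at h1
    rw [h1]
    exact jInv_mem_of_isCM (hs i hi)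
  have hxτ : ∀ i b, block i = some b → x i = jInv (gact (g i) (τ b)) := by
    intro i b hi
    have h1 := hτ i
    rw [hi] at h1
    simpa only [Option.elim] using h1
  have hTV : ∀ b ∈ T, jInv (τ b) ∈ OO := by
    intro b hb
    obtain ⟨i, -, rfl⟩ := Finset.mem_image.mp hb
    rw [← mem_OO_iff_gact (hg i), ← hxτ i (f i) (hf i), hxa i]
    exact intCast_mem OO (a i)
  refine ⟨r - I.card, x,
    fun i => (block i).bind fun b => if hb : b ∈ (Tᶜ : Finset (Fin r)) then some (e ⟨b, hb⟩) else none,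
    g, fun l => τ (e.symm l), ?_, hxW, fun T' hT' hxT' => ?_, hg, fun i hi => ?_,
    fun i l hl => ?_⟩
  · rw [hdimZ, hdimW]
    have h1 : r - I.card + I.card = r := Nat.sub_add_cancel hTle
    exact_mod_cast h1.le
  · apply hFx
    exact (mem_vanishingIdeal_iff.mp (hFS T' hT')) x hxT'
  · rcases hbi : block i with _ | b
    · exact hnone i hbi
    · dsimp only at hi
      rw [hbi, Option.bind_some] at hi
      split_ifs at hi with hb
      rw [hxτ i b hbi, mem_OO_iff_gact (hg i)]
      exact hTV b (by simpa using hb)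
  · dsimp only at hl
    obtain ⟨b, hbi, hb⟩ := Option.bind_eq_some_iff.mp hl
    split_ifs at hb with h1
    have h2 : e ⟨b, h1⟩ = l := Option.some.inj hb
    rw [hxτ i b hbi]
    simp only
    rw [← h2, Equiv.symm_apply_apply]

end Pool.Agent.ZPE
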