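import Pool.Agent.ZPE.Defs
import Pool.Agent.ZPE.Pair
import Pool.Agent.ZPE.Pt
import Pool.Agent.ZPS.Hyp

/-!
# A `p`-adic criterion for the finiteness of the atypical intersections
-/

namespace Pool.Agent.ZPE

open UpperHalfPlane MvPolynomial Pool.Agent.Hhelper14.ZP Pool.Agent.Hhelper14.ZPL Pool.Agent.ZPS

variable {n : ℕ}

theorem dim_eq_nat {W : Set (Fin n → ℂ)} (hW : Pool.Agent.Hhelper14.ZPL.IsIrredClosed W) :
    ∃ w : ℕ, Pool.Agent.Hhelper14.ZPL.dim W = w := by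
  obtain ⟨hP, hPW⟩ := id hW
  obtain ⟨I, hI⟩ := exists_basis (vanishingIdeal ℂ W)
  exact ⟨I.card, by rw [Pool.Agent.Hhelper14.ZPL.dim, krull_eq_card hI]; simp⟩

/-- **Criterion.** If at one place `n - dim V` coordinates of every point of `V` lie in finitely many
fixed discs outside the unit disc, all atypical intersections of `V` lie in finitely many proper
special subvarieties. -/
theorem crit {V : Set (Fin n → ℂ)} {d : ℕ} (hd : Pool.Agent.Hhelper14.ZPL.dim V = d) {p : ℕ}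
    [hp : Fact p.Prime] (σ : ℂ →+* PadicComplex p) {F : Set (PadicComplex p)} (hF : F.Finite)
    (hF1 : ∀ b ∈ F, 1 < ‖b‖) {δ : ℝ} (hδ : δ < 1)
    (hV : ∀ x ∈ V, ∃ S : Finset (Fin n), n ≤ S.card + d ∧
      ∀ i ∈ S, ∃ b ∈ F, ‖σ (x i) - b‖ ≤ δ * ‖b‖) : FinAtypical V := by
  classical
  have hpair : ∀ z : F × F, ∃ (N₀ : ℕ) (hN₀ : 0 < N₀), ∀ x y : ℂ,
      ‖σ x - z.1‖ ≤ δ * ‖(z.1 : PadicComplex p)‖ → ‖σ y - z.2‖ ≤ δ * ‖(z.2 : PadicComplex p)‖ →
      HeckeRel x y → ∃ (τ : ℍ) (A : DD N₀), x = jInv τ ∧ y = jA hN₀ A τ := fun z =>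
    pair_bounded σ (hF1 z.1 z.1.2) (hF1 z.2 z.2.2) hδ
  choose N hN hNp using hpair
  have hfinF : Finite F := hF
  have hfin : ∀ z : F × F, Finite (QQ (N z)) := fun z => finite_QQ (hN z)
  let G : ({q : Fin n × Fin n // q.1 ≠ q.2} × (Σ z : F × F, QQ (N z))) → Set (Fin n → ℂ) :=
    fun w => HypQ (hN w.2.1) w.2.2 w.1.1.1 w.1.1.2
  have hGs : ∀ T ∈ Set.range G, Pool.Agent.Hhelper14.ZPL.IsSpecial T ∧ T ≠ Set.univ := by
    rintro _ ⟨w, rfl⟩
    exact hypQ_special _ _ w.1.2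
  refine ⟨Set.range G, Set.finite_range G, hGs, fun Z hZ C hC hdim => ?_⟩
  by_contra hcon
  push Not at hcon
  have hZ' : Pool.Agent.Hhelper14.ZPL.IsSpecial Z := hZ
  have hC' : Pool.Agent.Hhelper14.ZPL.IsIrredClosed C := hC.1
  obtain ⟨r, x, block, g, τ, hr, hxC, hxT, hg, hnone, hsome⟩ :=
    exists_point_avoid hZ' hC' (fun x hx => (hC.2.1 hx).2) (Set.finite_range G)
      (fun T hT => (special_kclosed (hGs T hT).1).closed) hcon
  obtain ⟨S, hS, hSx⟩ := hV x (hC.2.1 hxC).1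
  -- the number of blocks
  have hrS : r < S.card := by
    obtain ⟨c, hc⟩ := dim_eq_nat hC'
    obtain ⟨r₀, block₀, g₀, s₀, hb₀, hg₀, -, rfl⟩ := isSpecial_iff.mp hZ'
    have h1 : Pool.Agent.Hhelper14.ZPL.dim (SpSet block₀ g₀ s₀) = r₀ := by
      rw [dim_spSet hb₀ hg₀, Fintype.card_fin]
    rw [h1, hc] at hr
    have h2 : (r : WithBot ℕ∞) + c ≤ r₀ := hr
    have h3 : r + c ≤ r₀ := by exact_mod_cast h2
    have h4 : Pool.Agent.Hhelper14.ZPL.dim (SpSet block₀ g₀ s₀) +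
      Pool.Agent.Hhelper14.ZPL.dim V < Pool.Agent.Hhelper14.ZPL.dim C + n := hdim
    rw [h1, hd, hc] at h4
    have h5 : r₀ + d < c + n := by exact_mod_cast h4
    omega
  have hbl : ∀ i : S, ∃ b, block i = some b := by
    intro i
    rw [← Option.ne_none_iff_exists']
    intro hi
    have h1 := norm_OO_le (K := PadicComplex p) norm_intCast_le σ (hnone i hi)
    obtain ⟨b, hb, hxb⟩ := hSx i i.2
    have hb1 := hF1 b hb
    have h2 := norm_of_near hδ (by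
      rintro rfl
      rw [norm_zero] at hb1
      linarith) hxb
    linarith
  choose f hf using hbl
  have hcard : Fintype.card (Fin r) < Fintype.card S := by
    rw [Fintype.card_fin, Fintype.card_coe]
    exact hrS
  obtain ⟨i, i', hne, hff⟩ := Fintype.exists_ne_map_eq_of_card_lt f hcard
  have hne' : (i : Fin n) ≠ i' := fun h => hne (Subtype.ext h)
  have hrel : HeckeRel (x i) (x i') := by
    refine ⟨gact (g i) (τ (f i)), g i' * (g i)⁻¹, ?_, hsome i _ (hf i), ?_⟩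
    · rw [map_mul, Units.val_mul]
      exact mul_pos (hg _) (det_inv_pos (hg _))
    · rw [hsome i' _ (hf i'), ← gact_mul, inv_mul_cancel_right, hff]
  obtain ⟨b, hb, hxb⟩ := hSx i i.2
  obtain ⟨b', hb', hxb'⟩ := hSx i' i'.2
  obtain ⟨τ₀, A, h1, h2⟩ := hNp (⟨b, hb⟩, ⟨b', hb'⟩) (x i) (x i') hxb hxb' hrel
  exact hxT _ ⟨(⟨(i, i'), hne'⟩, ⟨(⟨b, hb⟩, ⟨b', hb'⟩), Quotient.mk'' A⟩), rfl⟩ ⟨τ₀, h1, h2⟩

end Pool.Agent.ZPE
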