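import Pool.Agent.ZPE.Crit
import Pool.Agent.Hhelper14.ZP2.Translate

/-!
# The translates of a subvariety of `Y(1)ⁿ` by `PGL₂(ℂ)ⁿ`
-/

namespace Pool.Agent.ZPE

open MvPolynomial Pool.Agent.Hhelper14.ZP

variable {n : ℕ}

theorem pglImageC_eq (α β γ : Fin n → ℂ) (V : Set (Fin n → ℂ)) :
    pglImageC α β γ V = mobC β (fun i => α i - β i * γ i) (fun _ => 1) (fun i => -γ i) V := by
  ext x
  simp only [pglImageC, mobC, Set.mem_ofPred_eq]
  refine exists_congr fun y => and_congr_right fun _ => forall_congr' fun i => ?_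
  have e1 : (1 : ℂ) * y i + -γ i = y i - γ i := by ring
  rw [e1, sub_ne_zero]
  refine and_congr_right fun h => ?_
  have h' : y i - γ i ≠ 0 := sub_ne_zero.mpr h
  have e2 : β i + α i / (y i - γ i) = (β i * y i + (α i - β i * γ i)) / (y i - γ i) := by
    field_simp
    ring
  rw [e2]

/-- the inverse map -/
theorem pgl_inv {α β γ w z : ℂ} (hα : α ≠ 0) (h5 : w ≠ γ) (h6 : z = β + α / (w - γ)) :
    z ≠ β ∧ γ + α / (z - β) = w := by
  have h7 : w - γ ≠ 0 := sub_ne_zero.mpr h5
  have h8 : z - β = α / (w - γ) := by rw [h6]; ring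
  have h9 : z - β ≠ 0 := by rw [h8]; exact div_ne_zero hα h7
  refine ⟨sub_ne_zero.mp h9, ?_⟩
  rw [h8, div_div_eq_mul_div]
  field_simp
  ring

/-- relations pass to the translate -/
theorem relation_pgl {ι : Type} [Fintype ι] (e : ι → Fin n) {α β γ : Fin n → ℂ}
    (hα : ∀ i, α i ≠ 0) {V : Set (Fin n → ℂ)} {H : MvPolynomial ι ℂ}
    (hH : rename e H ∈ vanishingIdeal ℂ V) {x : Fin n → ℂ}
    (hx : x ∈ pglTranslateC α β γ V) (hne : ∀ i : ι, x (e i) ≠ β (e i)) :
    eval (fun i : ι => γ (e i) + α (e i) / (x (e i) - β (e i))) H = 0 := by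
  obtain ⟨D, G, hG⟩ := exists_clearing (fun i : ι => γ (e i))
    (fun i : ι => α (e i) - γ (e i) * β (e i)) (fun _ : ι => 1) (fun i : ι => -β (e i)) H
  have hform : ∀ (z : Fin n → ℂ), (∀ i : ι, z (e i) ≠ β (e i)) →
      (∀ i : ι, (1 : ℂ) * z (e i) + -β (e i) ≠ 0) ∧
      (fun i : ι => (γ (e i) * z (e i) + (α (e i) - γ (e i) * β (e i))) /
        (1 * z (e i) + -β (e i))) = fun i : ι => γ (e i) + α (e i) / (z (e i) - β (e i)) := by
    intro z hz
    have h1 : ∀ i : ι, (1 : ℂ) * z (e i) + -β (e i) = z (e i) - β (e i) := fun i => by ring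
    refine ⟨fun i => by rw [h1]; exact sub_ne_zero.mpr (hz i), funext fun i => ?_⟩
    rw [h1]
    have h2 : z (e i) - β (e i) ≠ 0 := sub_ne_zero.mpr (hz i)
    field_simp
    ring
  have hGmem : rename e G ∈ vanishingIdeal ℂ (pglImageC α β γ V) := by
    rw [mem_vanishingIdeal_iff]
    rintro z ⟨w, hw, hwz⟩
    have h34 : ∀ i : ι, z (e i) ≠ β (e i) ∧
        γ (e i) + α (e i) / (z (e i) - β (e i)) = w (e i) := by
      intro i
      obtain ⟨h5, h6⟩ := hwz (e i)
      exact pgl_inv (hα _) h5 h6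
    obtain ⟨h3, h4⟩ := hform z fun i => (h34 i).1
    have h5 := hG (fun i : ι => z (e i)) h3
    rw [h4] at h5
    have h6 : eval (fun i : ι => γ (e i) + α (e i) / (z (e i) - β (e i))) H = 0 := by
      have h7 := (mem_vanishingIdeal_iff.mp hH) w hw
      rw [aeval_rename] at h7
      rw [funext fun i => (h34 i).2]
      exact h7
    rw [h6, mul_zero] at h5
    rw [aeval_rename]
    exact h5
  have hGx : eval (fun i : ι => x (e i)) G = 0 := by
    have h3 := hx _ hGmem
    rw [aeval_rename] at h3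
    exact h3
  obtain ⟨h3, h4⟩ := hform x hne
  rw [hG _ h3] at hGx
  rw [← h4]
  exact (mul_eq_zero.mp hGx).resolve_left
    (pow_ne_zero _ (Finset.prod_ne_zero_iff.mpr fun i _ => h3 i))

/-- the translate of an irreducible closed set is irreducible of the same dimension -/
theorem pglTranslateC_irred {α β γ : Fin n → ℂ} (hα : ∀ i, α i ≠ 0) {V : Set (Fin n → ℂ)}
    (hV : IsIrredClosed V) (hne : (pglImageC α β γ V).Nonempty) :
    IsIrredClosed (pglTranslateC α β γ V) ∧ dim (pglTranslateC α β γ V) = dim V := by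
  have hdet : ∀ i, β i * -γ i - (α i - β i * γ i) * 1 ≠ 0 := fun i => by
    have e : β i * -γ i - (α i - β i * γ i) * 1 = -α i := by ring
    rw [e]
    exact neg_ne_zero.mpr (hα i)
  have h1 := dim_le_mobC hdet hV.1 (by rwa [← pglImageC_eq])
  rw [← pglImageC_eq] at h1
  have hvan : vanishingIdeal ℂ (pglTranslateC α β γ V) = vanishingIdeal ℂ (pglImageC α β γ V) :=
    vanishing_closure _
  have hirr : IsIrredClosed (pglTranslateC α β γ V) :=
    ⟨by rw [hvan]; exact h1.1, by rw [hvan]; rfl⟩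
  have hdimeq : dim (pglTranslateC α β γ V) = dim (pglImageC α β γ V) := by rw [dim, dim, hvan]
  refine ⟨hirr, le_antisymm ?_ (by rw [hdimeq]; exact h1.2)⟩
  -- the inverse translation
  set W := pglTranslateC α β γ V with hW
  set S' := pglImageC α γ β W with hS'
  have hsub : pglImageC α β γ V ⊆ W := le_zeroLocus_iff_le_vanishingIdeal.mpr le_rfl
  have hdet' : ∀ i, γ i * -β i - (α i - γ i * β i) * 1 ≠ 0 := fun i => by
    have e : γ i * -β i - (α i - γ i * β i) * 1 = -α i := by ring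
    rw [e]
    exact neg_ne_zero.mpr (hα i)
  have hne' : S'.Nonempty := by
    obtain ⟨x, hx⟩ := hne
    have hx' := hx
    obtain ⟨y, hy, hyx⟩ := hx'
    refine ⟨_, x, hsub hx, fun i => ⟨?_, rfl⟩⟩
    obtain ⟨h5, h6⟩ := hyx i
    exact (pgl_inv (hα i) h5 h6).1
  have h2 := dim_le_mobC hdet' (V := W) hirr.1 (by rwa [← pglImageC_eq])
  rw [← pglImageC_eq] at h2
  refine h2.2.trans (dim_mono ?_)
  -- the inverse image lies in `V`
  rintro y ⟨x, hx, hxy⟩
  rw [← hV.2]
  intro F hF
  have h3 := relation_pgl (fun i : Fin n => i) hα (H := F) (by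
    have e : rename (fun i : Fin n => i) F = F := by
      have := rename_id_apply F
      exact this
    rw [e]
    exact hF) hx fun i => (hxy i).1
  have h5 : y = fun i => γ i + α i / (x i - β i) := funext fun i => (hxy i).2
  rw [h5]
  exact h3

end Pool.Agent.ZPE
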