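import Pool.Agent.ZPD.Ord

/-!
# Roots of unity of `ℂ_p` in a disc of radius `δ < 1` around `1`
-/

namespace Pool.Agent.ZPE

open Pool.Agent.Hhelper14.ZP

variable {p : ℕ} [hp : Fact p.Prime]

theorem norm_root {η : PadicComplex p} {M : ℕ} (hM : 0 < M) (h : η ^ M = 1) : ‖η‖ = 1 := by
  have := congrArg norm h
  rw [norm_pow, norm_one] at this
  exact (pow_eq_one_iff_of_nonneg (norm_nonneg _) hM.ne').mp this

theorem norm_pow_sub_one_le {η : PadicComplex p} (hη : ‖η‖ = 1) (i : ℕ) :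
    ‖η ^ i - 1‖ ≤ ‖η - 1‖ := by
  have h4 := mul_geom_sum η i
  rw [← h4, norm_mul]
  refine mul_le_of_le_one_right (norm_nonneg _) ?_
  refine IsUltrametricDist.norm_sum_le_of_forall_le_of_nonneg zero_le_one fun j _ => ?_
  rw [norm_pow, hη, one_pow]

theorem norm_geom_sum_sub {η : PadicComplex p} (hη : ‖η‖ = 1) (n : ℕ) :
    ‖∑ i ∈ Finset.range n, η ^ i - (n : PadicComplex p)‖ ≤ ‖η - 1‖ := by
  have e : ∑ i ∈ Finset.range n, η ^ i - (n : PadicComplex p) =
      ∑ i ∈ Finset.range n, (η ^ i - 1) := by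
    rw [Finset.sum_sub_distrib]
    simp
  rw [e]
  exact IsUltrametricDist.norm_sum_le_of_forall_le_of_nonneg (norm_nonneg _)
    fun i _ => norm_pow_sub_one_le hη i

/-- a root of unity closer to `1` than `p` is `1` -/
theorem unity_eq_one {η : PadicComplex p} {M : ℕ} (hM : 0 < M) (h : η ^ M = 1)
    (h1 : ‖η - 1‖ < ‖(p : PadicComplex p)‖) : η = 1 := by
  have hη := norm_root hM h
  have hp1 : ‖(p : PadicComplex p)‖ < 1 := by
    have := (norm_intCast_lt_one_iff (p := p) (p : ℤ)).mpr dvd_rfl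
    rwa [Int.cast_natCast] at this
  by_contra hne
  have hord : orderOf η ≠ 1 := fun h0 => hne (orderOf_eq_one_iff.mp h0)
  have hpos : 0 < orderOf η := Nat.pos_of_dvd_of_pos (orderOf_dvd_of_pow_eq_one h) hM
  obtain ⟨q, hq, hqd⟩ := Nat.exists_prime_and_dvd hord
  have hωn : η ^ (orderOf η / q) ≠ 1 := by
    intro h0
    have h2 := orderOf_dvd_of_pow_eq_one h0
    have h3 : 0 < orderOf η / q := Nat.div_pos (Nat.le_of_dvd hpos hqd) hq.pos
    have h4 := Nat.le_of_dvd h3 h2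
    have h5 := Nat.div_lt_self hpos hq.one_lt
    omega
  have hωq : (η ^ (orderOf η / q)) ^ q = 1 := by
    rw [← pow_mul, Nat.div_mul_cancel hqd, pow_orderOf_eq_one]
  have hωc := norm_pow_sub_one_le hη (orderOf η / q)
  set ω := η ^ (orderOf η / q) with hω
  by_cases hqp : q = p
  · subst hqp
    have hω1 := norm_root hp.out.pos hωq
    have hgeom : ∑ i ∈ Finset.range q, ω ^ i = 0 := by
      have h2 := geom_sum_mul ω q
      rw [hωq, sub_self] at h2
      exact (mul_eq_zero.mp h2).resolve_right (sub_ne_zero.mpr hωn)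
    have h3 := norm_geom_sum_sub hω1 q
    rw [hgeom, zero_sub, norm_neg] at h3
    linarith
  · apply hωn
    refine eq_one_of_pow_eq_one (M := q) ?_ hωq (by linarith)
    intro hdvd
    exact hqp ((Nat.prime_dvd_prime_iff_eq hp.out hq).mp hdvd).symm

/-- **For `δ < 1` the roots of unity `ζ` with `|ζ - 1| ≤ δ` are killed by a power of `p`.** -/
theorem unity_near {δ : ℝ} (hδ : δ < 1) : ∃ j : ℕ, ∀ (ζ : PadicComplex p) (M : ℕ), 0 < M →
    ζ ^ M = 1 → ‖ζ - 1‖ ≤ δ → ζ ^ (p ^ j) = 1 := by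
  have hp1 : ‖(p : PadicComplex p)‖ < 1 := by
    have := (norm_intCast_lt_one_iff (p := p) (p : ℤ)).mpr dvd_rfl
    rwa [Int.cast_natCast] at this
  have hp0 : 0 < ‖(p : PadicComplex p)‖ := by
    rw [norm_pos_iff]
    exact_mod_cast hp.out.ne_zero
  set κ : ℝ := max δ ‖(p : PadicComplex p)‖ with hκ
  have hκ1 : κ < 1 := max_lt hδ hp1
  have hκ0 : 0 < κ := lt_max_of_lt_right hp0
  obtain ⟨j, hj⟩ := exists_pow_lt_of_lt_one hp0 hκ1
  refine ⟨j, fun ζ M hM h1 h2 => ?_⟩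
  have hstep : ∀ k : ℕ, ‖ζ ^ (p ^ k) - 1‖ ≤ κ ^ k * ‖ζ - 1‖ := by
    intro k
    induction k with
    | zero => simp
    | succ k ih =>
      have hη : (ζ ^ (p ^ k)) ^ M = 1 := by
        rw [← pow_mul, mul_comm, pow_mul, h1, one_pow]
      set η := ζ ^ (p ^ k) with hηdef
      have hη1 := norm_root hM hη
      have e : ζ ^ (p ^ (k + 1)) - 1 = (∑ i ∈ Finset.range p, η ^ i) * (η - 1) := by
        rw [geom_sum_mul, hηdef, ← pow_mul, ← pow_succ]
      have hηδ : ‖η - 1‖ ≤ δ := (norm_pow_sub_one_le (norm_root hM h1) _).trans h2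
      have h3 : ‖∑ i ∈ Finset.range p, η ^ i‖ ≤ κ := by
        have e2 : ∑ i ∈ Finset.range p, η ^ i =
            (∑ i ∈ Finset.range p, η ^ i - (p : PadicComplex p)) + (p : PadicComplex p) := by ring
        rw [e2]
        exact (IsUltrametricDist.norm_add_le_max _ _).trans
          (max_le_max ((norm_geom_sum_sub hη1 p).trans hηδ) le_rfl)
      rw [e, norm_mul, pow_succ, mul_comm (κ ^ k) κ, mul_assoc]
      exact mul_le_mul h3 ih (norm_nonneg _) hκ0.le
  have h3 := hstep j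
  have h4 : ‖ζ ^ (p ^ j) - 1‖ < ‖(p : PadicComplex p)‖ := by
    refine h3.trans_lt ?_
    have h5 : ‖ζ - 1‖ ≤ 1 := h2.trans hδ.le
    calc κ ^ j * ‖ζ - 1‖ ≤ κ ^ j * 1 := by gcongr
      _ < _ := by rw [mul_one]; exact hj
  exact unity_eq_one hM (by rw [← pow_mul, mul_comm, pow_mul, h1, one_pow]) h4

end Pool.Agent.ZPE
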