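import Pool.Agent.ZPD.Deg
import Pool.Agent.ZPE.Unity

/-!
# Hecke relations from Tate parameters, the general case
-/

namespace Pool.Agent.ZPE

open UpperHalfPlane ModularForm MatrixGroups Function PowerSeries Pool.Agent.Hhelper14.ZP

/-- a class with a given root of unity -/
theorem exists_class_root {a d : ℕ} (hd : 0 < d) {N : ℕ} (hN : 0 < N) (hadN : a * d = N)
    {f : PowerSeries ℂ}
    (hf : ∀ τ : ℍ, Ev (Periodic.qParam 1 (τ : ℂ)) f (Periodic.qParam 1 (τ : ℂ) * jInv τ))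
    (b : ℕ) : ∃ B : DD N, ∀ τ : ℍ,
      Ev (qN N τ) (powComp (Complex.exp (2 * Real.pi * Complex.I / d) ^ b) (a ^ 2) f)
        (Complex.exp (2 * Real.pi * Complex.I / d) ^ b * qN N τ ^ (a ^ 2) *
          jQ hN (Quotient.mk'' B) τ) := by
  subst hadN
  have ha : 0 < a := Nat.pos_of_mul_pos_right hN
  let A : Matrix (Fin 2) (Fin 2) ℤ := !![(a : ℤ), (b : ℤ); 0, (d : ℤ)]
  have hA : A.det = ((a * d : ℕ) : ℤ) := by
    simp [A, Matrix.det_fin_two]
  refine ⟨mkDD A hA, fun τ => ?_⟩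
  have hDC : (d : ℂ) ≠ 0 := by exact_mod_cast hd.ne'
  have haC : (a : ℂ) ≠ 0 := by exact_mod_cast ha.ne'
  have hact : (act hN (mkDD A hA) τ : ℂ) = (a * τ + b) / d := by
    rw [coe_act_mk]
    simp [A]
  have hq : Periodic.qParam 1 (act hN (mkDD A hA) τ : ℂ) =
      Complex.exp (2 * Real.pi * Complex.I / d) ^ b * qN (a * d) τ ^ (a ^ 2) := by
    rw [hact]
    simp only [qN, Periodic.qParam]
    rw [← Complex.exp_nat_mul, ← Complex.exp_nat_mul, ← Complex.exp_add]
    congr 1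
    push_cast
    field_simp
    ring
  rw [jQ_mk]
  have h1 := hf (act hN (mkDD A hA) τ)
  rw [hq] at h1
  exact h1.powComp (by positivity)

variable {K : Type*} [NormedField K] [IsUltrametricDist K] [CompleteSpace K]

/-- Tate parameters that are related come from a Hecke relation. -/
theorem dd_of_tate {fC : PowerSeries ℂ} (hfO : ∀ n, coeff n fC ∈ OO) (hf0 : coeff 0 fC = 1)
    (hf : ∀ τ : ℍ, Ev (Function.Periodic.qParam 1 (τ : ℂ)) fC
      (Function.Periodic.qParam 1 (τ : ℂ) * jInv τ))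
    (hZ : ∀ m : ℤ, ‖(m : K)‖ ≤ 1) (σ : ℂ →+* K) {a₀ d₀ N : ℕ} (hN : 0 < N)
    (hadN : a₀ * d₀ = N) (τ₀ : ℍ) {q s ζ : K}
    (hq : IsTate (PowerSeries.map σ fC) (σ (jInv τ₀)) q) (hs : s ^ N = q)
    (hζ : ζ ^ d₀ = 1) {y : ℂ} (hy : IsTate (PowerSeries.map σ fC) (σ y) (ζ * s ^ (a₀ ^ 2))) :
    ∃ A : DD N, y = jA hN A τ₀ := by
  classical
  have ha₀ : 0 < a₀ := by
    rcases Nat.eq_zero_or_pos a₀ with h | h
    · rw [h, zero_mul] at hadN
      omega
    · exact h
  have hd₀ : 0 < d₀ := by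
    rcases Nat.eq_zero_or_pos d₀ with h | h
    · rw [h, mul_zero] at hadN
      omega
    · exact h
  choose a d c ha hd had hc hac using class_expansion hN hf
  have hprim : IsPrimitiveRoot (Complex.exp (2 * Real.pi * Complex.I / d₀)) d₀ :=
    Complex.isPrimitiveRoot_exp d₀ hd₀.ne'
  have hprim' := hprim.map_of_injective (f := σ) σ.injective
  have hne : NeZero d₀ := ⟨hd₀.ne'⟩
  obtain ⟨b, -, hb⟩ := hprim'.eq_pow_of_pow_eq_one hζ
  obtain ⟨B, hB⟩ := exists_class_root hd₀ hN hadN hf b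
  set c₀ : ℂ := Complex.exp (2 * Real.pi * Complex.I / d₀) ^ b with hc₀
  have hσc : σ c₀ = ζ := by rw [hc₀, map_pow, hb]
  have hc₀D : c₀ ^ d₀ = 1 := by
    rw [hc₀, ← pow_mul, mul_comm b d₀, pow_mul, hprim.pow_eq_one, one_pow]
  let r₀ : QQ N := Quotient.mk'' B
  have key := tate_iff hfO hf0 hf hZ σ hN (a := Function.update a r₀ a₀)
    (d := Function.update d r₀ d₀) (c := Function.update c r₀ c₀) (fun r => by
      rcases eq_or_ne r r₀ with rfl | h
      · rw [Function.update_self]; exact ha₀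
      · rw [Function.update_of_ne h]; exact ha r) (fun r => by
      rcases eq_or_ne r r₀ with rfl | h
      · rw [Function.update_self]; exact hd₀
      · rw [Function.update_of_ne h]; exact hd r) (fun r => by
      rcases eq_or_ne r r₀ with rfl | h
      · rw [Function.update_self, Function.update_self]; exact hc₀D
      · rw [Function.update_of_ne h, Function.update_of_ne h]; exact hc r) (fun r τ => by
      rcases eq_or_ne r r₀ with rfl | h
      · rw [Function.update_self, Function.update_self]; exact hB τ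
      · rw [Function.update_of_ne h, Function.update_of_ne h]; exact hac r τ) τ₀ hq hs y
  obtain ⟨r, hr⟩ := key.mpr ⟨r₀, by
    rw [Function.update_self, Function.update_self, hσc]
    exact hy⟩
  induction r using Quotient.inductionOn' with
  | h A => exact ⟨A, by rw [hr, jQ_mk]⟩

/-- the roots of the modular equation -/
theorem tate_of_dd {fC : PowerSeries ℂ} (hfO : ∀ n, coeff n fC ∈ OO) (hf0 : coeff 0 fC = 1)
    (hf : ∀ τ : ℍ, Ev (Function.Periodic.qParam 1 (τ : ℂ)) fC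
      (Function.Periodic.qParam 1 (τ : ℂ) * jInv τ))
    (hZ : ∀ m : ℤ, ‖(m : K)‖ ≤ 1) (σ : ℂ →+* K) {N : ℕ} (hN : 0 < N) (A : DD N) (τ₀ : ℍ)
    {q s : K} (hq : IsTate (PowerSeries.map σ fC) (σ (jInv τ₀)) q) (hs : s ^ N = q) :
    ∃ (a d : ℕ) (ζ : K), 0 < a ∧ 0 < d ∧ a * d = N ∧ ζ ^ d = 1 ∧
      IsTate (PowerSeries.map σ fC) (σ (jA hN A τ₀)) (ζ * s ^ (a ^ 2)) := by
  choose a d c ha hd had hc hac using class_expansion hN hf
  have key := tate_iff hfO hf0 hf hZ σ hN ha hd hc hac τ₀ hq hs (jA hN A τ₀)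
  obtain ⟨r, hr⟩ := key.mp ⟨Quotient.mk'' A, by rw [jQ_mk]⟩
  exact ⟨a r, d r, σ (c r), ha r, hd r, had r, by rw [← map_pow, hc r, map_one], hr⟩

end Pool.Agent.ZPE
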