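import Pool.Agent.ZPE.Stmt
import Pool.Agent.Hhelper14.ZP2.Main
import Pool.Agent.ZPD.Sig

/-!
# Translates of an arbitrary subvariety of `Y(1)ⁿ` by `p`-adically large vectors
-/

namespace Pool.Agent.ZPE

open MvPolynomial Pool.Agent.Hhelper14.ZP

variable {n : ℕ}

/-- a polynomial with constant coefficient `1` has no zero in a small polydisc -/
theorem eval_ne_zero_of_small {ι : Type} [Fintype ι] [Nonempty ι] {K : Type*} [NormedField K]
    [IsUltrametricDist K] {Q : MvPolynomial ι K} {R : ℝ} (hR : 1 ≤ R) (h0 : Q.coeff 0 = 1)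
    (hc : ∀ μ, ‖Q.coeff μ‖ ≤ R) {z : ι → K} (hz : ∀ i, R * ‖z i‖ < 1) : eval z Q ≠ 0 := by
  classical
  intro he
  obtain ⟨i₀, hi₀⟩ := Finite.exists_max (fun i => ‖z i‖)
  have hz1 : ∀ i, ‖z i‖ ≤ 1 := fun i => by
    have h1 := hz i
    have h2 : 1 * ‖z i‖ ≤ R * ‖z i‖ := by gcongr
    linarith
  have hmem : (0 : ι →₀ ℕ) ∈ Q.support := by
    rw [mem_support_iff, h0]
    exact one_ne_zero
  rw [eval_eq', ← Finset.add_sum_erase _ _ hmem, h0] at he
  have h1 : ‖∑ d ∈ Q.support.erase 0, Q.coeff d * ∏ i, z i ^ d i‖ ≤ R * ‖z i₀‖ := by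
    refine IsUltrametricDist.norm_sum_le_of_forall_le_of_nonneg (by positivity) fun d hd => ?_
    have hd0 : d ≠ 0 := (Finset.mem_erase.mp hd).1
    obtain ⟨j, hj⟩ : ∃ j, d j ≠ 0 := by
      by_contra hcon
      push Not at hcon
      exact hd0 (Finsupp.ext hcon)
    rw [norm_mul]
    refine mul_le_mul (hc d) ?_ (norm_nonneg _) (by linarith)
    rw [norm_prod, ← Finset.mul_prod_erase Finset.univ _ (Finset.mem_univ j)]
    have h2 : ∏ x ∈ Finset.univ.erase j, ‖z x ^ d x‖ ≤ 1 :=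
      Finset.prod_le_one (fun _ _ => norm_nonneg _) fun x _ => by
        rw [norm_pow]
        exact pow_le_one₀ (norm_nonneg _) (hz1 x)
    have h3 : ‖z j ^ d j‖ ≤ ‖z i₀‖ := by
      rw [norm_pow]
      exact (pow_le_of_le_one (norm_nonneg _) (hz1 j) hj).trans (hi₀ j)
    calc _ ≤ ‖z j ^ d j‖ * 1 := by gcongr
      _ ≤ _ := by rw [mul_one]; exact h3
  have h2 : (1 : K) = -∑ d ∈ Q.support.erase 0, Q.coeff d * ∏ i, z i ^ d i := by
    have h3 : (1 : K) * ∏ i, z i ^ (0 : ι →₀ ℕ) i = 1 := by simp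
    rw [h3] at he
    linear_combination he
  have h3 := congrArg norm h2
  rw [norm_one, norm_neg] at h3
  have h4 := hz i₀
  linarith

/-- the relation, expanded at `γ` and divided by its constant term -/
noncomputable def shiftRel (γ : Fin n → ℂ) (J : Finset (Fin n)) (H : MvPolynomial J ℂ) :
    MvPolynomial J ℂ :=
  C (eval (fun i : J => γ i) H)⁻¹ * aeval (fun i : J => X i + C (γ i)) H

theorem eval_shiftRel (γ : Fin n → ℂ) (J : Finset (Fin n)) (H : MvPolynomial J ℂ) (z : J → ℂ) :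
    eval z (shiftRel γ J H) =
      (eval (fun i : J => γ i) H)⁻¹ * eval (fun i : J => γ i + z i) H := by
  rw [shiftRel, map_mul, eval_C]
  congr 1
  have h1 : (eval z).comp (aeval (fun i : J => (X i + C (γ i) : MvPolynomial J ℂ))).toRingHom =
      eval (fun i : J => γ i + z i) := by
    apply MvPolynomial.ringHom_ext
    · intro r
      simp
    · intro i
      simp [add_comm]
  exact DFunLike.congr_fun h1 H

theorem coeff_shiftRel {γ : Fin n → ℂ} {J : Finset (Fin n)} {H : MvPolynomial J ℂ}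
    (h : eval (fun i : J => γ i) H ≠ 0) : (shiftRel γ J H).coeff 0 = 1 := by
  have h1 := eval_shiftRel γ J H 0
  rw [MvPolynomial.eval_zero] at h1
  have h2 : constantCoeff (shiftRel γ J H) = (shiftRel γ J H).coeff 0 := rfl
  rw [← h2, h1]
  simp only [Pi.zero_apply, add_zero]
  exact inv_mul_cancel₀ h

/-- **At most `dim V` coordinates of a point of the translate are far from the `β_i`.** -/
theorem near_card {V : Set (Fin n → ℂ)} {d : ℕ} {H : (J : Finset (Fin n)) → MvPolynomial J ℂ}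
    (hH : ∀ J : Finset (Fin n), J.card = d + 1 →
      rename ((↑) : J → Fin n) (H J) ∈ vanishingIdeal ℂ V)
    {α β γ : Fin n → ℂ} (hα : ∀ i, α i ≠ 0) (hγ : ∀ J : Finset (Fin n), eval (fun i : J => γ i) (H J) ≠ 0)
    {p : ℕ} [hp : Fact p.Prime] (σ : ℂ →+* PadicComplex p) {R B : ℝ} (hR : 1 ≤ R) (hB0 : 0 ≤ B)
    (hc : ∀ (J : Finset (Fin n)) μ, ‖σ ((shiftRel γ J (H J)).coeff μ)‖ ≤ R)
    (hB : ∀ i, R * ‖σ (α i)‖ ≤ B) {x : Fin n → ℂ} (hx : x ∈ pglTranslateC α β γ V) :
    ∃ S : Finset (Fin n), n ≤ S.card + d ∧ ∀ i ∈ S, ‖σ (x i) - σ (β i)‖ ≤ B := by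
  classical
  let far : Finset (Fin n) := Finset.univ.filter fun i => B < ‖σ (x i) - σ (β i)‖
  have hfar : far.card ≤ d := by
    by_contra hcon
    rw [not_le] at hcon
    obtain ⟨J, hJfar, hJcard⟩ := Finset.exists_subset_card_eq hcon
    have hfarJ : ∀ i : J, B < ‖σ (x i) - σ (β i)‖ := fun i =>
      (Finset.mem_filter.mp (hJfar i.2)).2
    have hne : ∀ i : J, x i ≠ β i := fun i h => by
      have h1 := hfarJ i
      rw [h, sub_self, norm_zero] at h1
      linarith
    have h1 := relation_pgl ((↑) : J → Fin n) hα (hH J hJcard) hx hne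
    have h2 : eval (fun i : J => α i / (x i - β i)) (shiftRel γ J (H J)) = 0 := by
      rw [eval_shiftRel, h1, mul_zero]
    have h3 : eval (fun i : J => σ (α i / (x i - β i))) (MvPolynomial.map σ (shiftRel γ J (H J))) =
        0 := by
      rw [eval_map]
      have h4 := congrArg σ h2
      rw [map_zero, ← MvPolynomial.eval₂_id, MvPolynomial.eval₂_comp_left, RingHom.comp_id] at h4
      exact h4
    have hJne : Nonempty J := by
      rw [← Fintype.card_pos_iff, Fintype.card_coe, hJcard]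
      omega
    refine eval_ne_zero_of_small hR ?_ (fun μ => ?_) (fun i => ?_) h3
    · rw [coeff_map, coeff_shiftRel (hγ J), map_one]
    · rw [coeff_map]
      exact hc J μ
    · rw [map_div₀, map_sub, norm_div, ← mul_div_assoc,
        div_lt_one (lt_of_le_of_lt hB0 (hfarJ i))]
      exact (hB i).trans_lt (hfarJ i)
  refine ⟨farᶜ, ?_, fun i hi => ?_⟩
  · rw [Finset.card_compl, Fintype.card_fin]
    omega
  · by_contra hcon
    rw [Finset.mem_compl] at hi
    exact hi (Finset.mem_filter.mpr ⟨Finset.mem_univ i, not_le.mp hcon⟩)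

/-- the norm of a factorial -/
theorem norm_factorial_le {p P₀ : ℕ} [hp : Fact p.Prime] (h : p < P₀) :
    ‖((P₀.factorial : ℕ) : PadicComplex p)‖ ≤ 1 / 2 := by
  obtain ⟨c, hc⟩ := Nat.dvd_factorial hp.out.pos h.le
  rw [hc, Nat.cast_mul, norm_mul, norm_p_eq]
  have h1 : ‖(c : PadicComplex p)‖ ≤ 1 := by
    have := norm_intCast_le (p := p) (c : ℤ)
    rwa [Int.cast_natCast] at this
  have h2 : (2 : ℝ) ≤ p := by exact_mod_cast hp.out.two_le
  have h3 : ((p : ℝ))⁻¹ ≤ 1 / 2 := by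
    rw [one_div]
    exact inv_anti₀ (by norm_num) h2
  calc ((p : ℝ))⁻¹ * ‖(c : PadicComplex p)‖ ≤ (p : ℝ)⁻¹ * 1 := by gcongr
    _ ≤ 1 / 2 := by rw [mul_one]; exact h3

/-- **Main theorem.** -/
theorem finAtypical_translates {V : Set (Fin n → ℂ)} (hV : IsIrredClosed V) :
    ∃ F : MvPolynomial (Fin n) ℂ, F ≠ 0 ∧ ∀ α γ : Fin n → ℂ, (∀ i, α i ≠ 0) → eval γ F ≠ 0 →
      ∃ (M : ℕ) (σ : (p : ℕ) → [Fact p.Prime] → ℂ →+* PadicComplex p), 0 < M ∧
        ∀ (p : ℕ) [Fact p.Prime] (β : Fin n → ℂ),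
          (∀ i, 1 < ‖(M : PadicComplex p) * σ p (β i)‖) →
          IsIrredClosed (pglTranslateC α β γ V) ∧ dim (pglTranslateC α β γ V) = dim V ∧
            FinAtypical (pglTranslateC α β γ V) := by
  classical
  obtain ⟨hP, hPV⟩ := id hV
  obtain ⟨I, hI⟩ := exists_basis (vanishingIdeal ℂ V)
  have hdimV : dim V = I.card := by
    rw [dim, krull_eq_card hI]
    simp
  obtain ⟨v, hv⟩ : V.Nonempty := by
    by_contra hcon
    rw [Set.not_nonempty_iff_eq_empty] at hcon
    apply hP.ne_top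
    rw [hcon, vanishingIdeal_empty]
  choose H hH0 hH using exists_relation hI
  refine ⟨(∏ J : Finset (Fin n), rename ((↑) : J → Fin n) (H J)) * ∏ i : Fin n, (X i - C (v i)),
    ?_, fun α γ hα hγ => ?_⟩
  · refine mul_ne_zero (Finset.prod_ne_zero_iff.mpr fun J _ => ?_)
      (Finset.prod_ne_zero_iff.mpr fun i _ => ?_)
    · intro h
      have h1 := rename_injective _ Subtype.coe_injective (h.trans (map_zero _).symm)
      exact hH0 J h1
    · intro h
      have h1 := congrArg (eval (fun _ => v i + 1)) h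
      simp at h1
  rw [map_mul, map_prod, map_prod] at hγ
  have hγJ : ∀ J : Finset (Fin n), eval (fun i : J => γ i) (H J) ≠ 0 := by
    intro J
    have h1 := Finset.prod_ne_zero_iff.mp (left_ne_zero_of_mul hγ) J (Finset.mem_univ J)
    rw [eval_rename] at h1
    exact h1
  have hγv : ∀ i, v i ≠ γ i := by
    intro i h
    have h1 := Finset.prod_ne_zero_iff.mp (right_ne_zero_of_mul hγ) i (Finset.mem_univ i)
    apply h1
    rw [map_sub, eval_X, eval_C, h, sub_self]
  -- good embeddings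
  let T : Finset ℂ := (Finset.univ.biUnion fun J : Finset (Fin n) =>
      (shiftRel γ J (H J)).support.image fun μ => (shiftRel γ J (H J)).coeff μ) ∪
    Finset.univ.image α
  have hTc : ∀ (J : Finset (Fin n)) μ, μ ∈ (shiftRel γ J (H J)).support →
      (shiftRel γ J (H J)).coeff μ ∈ T := fun J μ hμ =>
    Finset.mem_union_left _ (Finset.mem_biUnion.mpr ⟨J, Finset.mem_univ J,
      Finset.mem_image_of_mem _ hμ⟩)
  have hTα : ∀ i, α i ∈ T := fun i =>
    Finset.mem_union_right _ (Finset.mem_image_of_mem _ (Finset.mem_univ i))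
  obtain ⟨P₀, hP₀⟩ := exists_sigma_all T
  have hex : ∀ (p : ℕ) [Fact p.Prime], ∃ (σ : ℂ →+* PadicComplex p) (R B : ℝ), 1 ≤ R ∧ 1 ≤ B ∧
      (P₀ ≤ p → B = 1) ∧ (∀ (J : Finset (Fin n)) μ, ‖σ ((shiftRel γ J (H J)).coeff μ)‖ ≤ R) ∧
      ∀ i, R * ‖σ (α i)‖ ≤ B := by
    intro p hp
    have hcoe : ∀ (σ : ℂ →+* PadicComplex p) (R : ℝ), 0 ≤ R → (∀ t ∈ T, ‖σ t‖ ≤ R) →
        ∀ (J : Finset (Fin n)) μ, ‖σ ((shiftRel γ J (H J)).coeff μ)‖ ≤ R := by
      intro σ R hR h J μ
      by_cases hμ : μ ∈ (shiftRel γ J (H J)).support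
      · exact h _ (hTc J μ hμ)
      · rw [notMem_support_iff.mp hμ, map_zero, norm_zero]
        exact hR
    rcases le_or_gt P₀ p with hpP | hpP
    · obtain ⟨σ, hσ⟩ := hP₀ p hpP
      refine ⟨σ, 1, 1, le_rfl, le_rfl, fun _ => rfl, hcoe σ 1 zero_le_one hσ, fun i => ?_⟩
      rw [one_mul]
      exact hσ _ (hTα i)
    · obtain ⟨σ⟩ := exists_embedding p
      set R : ℝ := 1 + ∑ t ∈ T, ‖σ t‖ with hRdef
      have hR1 : 1 ≤ R := by
        have : 0 ≤ ∑ t ∈ T, ‖σ t‖ := Finset.sum_nonneg fun t _ => norm_nonneg _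
        linarith
      have hRT : ∀ t ∈ T, ‖σ t‖ ≤ R := by
        intro t ht
        have := Finset.single_le_sum (f := fun t => ‖σ t‖) (fun t _ => norm_nonneg _) ht
        linarith
      refine ⟨σ, R, R * R, hR1, one_le_mul_of_one_le_of_one_le hR1 hR1,
        fun h => absurd hpP (not_lt.mpr h), hcoe σ R (by linarith) hRT, fun i => ?_⟩
      have := hRT _ (hTα i)
      gcongr
  choose σ R B hR hB hB1 hc hα' using hex
  -- the integer `M`
  let B' : ℕ → ℝ := fun p => if h : p.Prime then @B p ⟨h⟩ else 1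
  have hB'0 : ∀ p, 0 ≤ B' p := by
    intro p
    simp only [B']
    split_ifs with h
    · have := @hB p ⟨h⟩
      linarith
    · exact zero_le_one
  obtain ⟨k, hk⟩ := pow_unbounded_of_one_lt (∑ p ∈ Finset.range P₀, B' p) one_lt_two
  refine ⟨P₀.factorial ^ k, fun p _ => σ p, pow_pos (Nat.factorial_pos _) k,
    fun p hp β hβ => ?_⟩
  have hMn : ‖((P₀.factorial ^ k : ℕ) : PadicComplex p)‖ * B p ≤ 1 := by
    rcases le_or_gt P₀ p with hpP | hpP
    · rw [hB1 p hpP, mul_one]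
      have := norm_intCast_le (p := p) ((P₀.factorial ^ k : ℕ) : ℤ)
      rwa [Int.cast_natCast] at this
    · rw [Nat.cast_pow, norm_pow]
      have h1 : ‖((P₀.factorial : ℕ) : PadicComplex p)‖ ^ k ≤ (1 / 2) ^ k :=
        pow_le_pow_left₀ (norm_nonneg _) (norm_factorial_le hpP) k
      have h2 : B p ≤ 2 ^ k := by
        have h3 : B' p = B p := by
          simp only [B']
          rw [dif_pos hp.out]
        rw [← h3]
        exact (Finset.single_le_sum (fun q _ => hB'0 q) (Finset.mem_range.mpr hpP)).trans hk.le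
      have h4 := hB p
      calc _ ≤ (1 / 2) ^ k * (2 : ℝ) ^ k := by gcongr
        _ = 1 := by rw [← mul_pow]; norm_num
  have hβ' : ∀ i, B p < ‖σ p (β i)‖ := by
    intro i
    have h1 := hβ i
    rw [norm_mul] at h1
    by_contra hcon
    rw [not_lt] at hcon
    have h2 : ‖((P₀.factorial ^ k : ℕ) : PadicComplex p)‖ * ‖σ p (β i)‖ ≤
        ‖((P₀.factorial ^ k : ℕ) : PadicComplex p)‖ * B p := by gcongr
    linarith
  have hne : (pglImageC α β γ V).Nonempty := ⟨_, v, hv, fun i => ⟨hγv i, rfl⟩⟩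
  obtain ⟨hirr, hdimeq⟩ := pglTranslateC_irred (β := β) hα hV hne
  refine ⟨hirr, hdimeq, ?_⟩
  -- the radius
  have hB0 := hB p
  obtain ⟨δ, hδ, hδB⟩ : ∃ δ : ℝ, δ < 1 ∧ ∀ i, B p ≤ δ * ‖σ p (β i)‖ := by
    rcases isEmpty_or_nonempty (Fin n) with hn | hn
    · exact ⟨0, one_pos, fun i => hn.elim i⟩
    · obtain ⟨i₀, hi₀⟩ := Finite.exists_max (fun i => B p / ‖σ p (β i)‖)
      refine ⟨B p / ‖σ p (β i₀)‖, ?_, fun i => ?_⟩
      · rw [div_lt_one (by linarith [hβ' i₀])]
        exact hβ' i₀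
      · have h1 : 0 < ‖σ p (β i)‖ := by linarith [hβ' i]
        rw [← div_le_iff₀ h1]
        exact hi₀ i
  refine crit (d := I.card) (by
    have h1 : Pool.Agent.Hhelper14.ZPL.dim (pglTranslateC α β γ V) =
      dim (pglTranslateC α β γ V) := rfl
    rw [h1, hdimeq, hdimV]) (σ p) (F := Set.range fun i => σ p (β i)) (Set.finite_range _) ?_ hδ
    fun x hx => ?_
  · rintro _ ⟨i, rfl⟩
    linarith [hβ' i]
  · obtain ⟨S, hS, hSx⟩ := near_card (β := β) hH hα hγJ (σ p) (hR p) (by linarith) (hc p)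
      (hα' p) hx
    exact ⟨S, hS, fun i hi => ⟨_, ⟨i, rfl⟩, (hSx i hi).trans (hδB i)⟩⟩

end Pool.Agent.ZPE
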